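import Mathlib

set_option autoImplicit false

namespace Pool.Agent.Results.MP_714461_an.Nowhere

open Filter Topology
open scoped ENNReal

/-- Gateaux differentiability of `φ` at `x`. -/
def GateauxAt {X Y : Type*} [NormedAddCommGroup X] [NormedSpace ℝ X] [NormedAddCommGroup Y]
    [NormedSpace ℝ Y] (φ : X → Y) (x : X) : Prop :=
  ∃ T : X →L[ℝ] Y, ∀ h : X,
    Tendsto (fun t : ℝ => t⁻¹ • (φ (x + t • h) - φ x)) (𝓝[≠] 0) (𝓝 (T h))

abbrev H := lp (fun _ : ℝ => ℝ) 2

theorem mem (g : ℝ → ℝ) (K : ℝ) (hg : ∀ s t, |g s - g t| ≤ K * |s - t|) (h0 : g 0 = 0) (x : H) :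
    Memℓp (fun i => g (x i)) 2 := by
  have := (lp.memℓp x).const_smul K
  refine Memℓp.mono' this fun i => ?_
  have := hg (x i) 0
  rw [h0, sub_zero, sub_zero] at this
  simp only [Real.norm_eq_abs, Pi.smul_apply, smul_eq_mul, abs_mul]
  exact this.trans (mul_le_mul_of_nonneg_right (le_abs_self K) (abs_nonneg _))

noncomputable def lift (g : ℝ → ℝ) (K : ℝ) (hg : ∀ s t, |g s - g t| ≤ K * |s - t|) (h0 : g 0 = 0)
    (x : H) : H := ⟨fun i => g (x i), mem g K hg h0 x⟩

theorem lift_lip (g : ℝ → ℝ) (K : NNReal) (hg : ∀ s t, |g s - g t| ≤ K * |s - t|) (h0 : g 0 = 0) :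
    LipschitzWith K (lift g K hg h0) := by
  refine LipschitzWith.of_dist_le_mul fun x y => ?_
  rw [dist_eq_norm, dist_eq_norm]
  have : ‖(K : ℝ) • (x - y)‖ = K * ‖x - y‖ := by rw [norm_smul]; simp
  rw [← this]
  refine lp.norm_mono (by norm_num) fun i => ?_
  have := hg (x i) (y i)
  simpa [lift, abs_mul] using this

noncomputable def g (t : ℝ) : ℝ := 2 * t + |t|
noncomputable def g' (t : ℝ) : ℝ := (2 * t - |t|) / 3

theorem g_lip (s t : ℝ) : |g s - g t| ≤ (3 : NNReal) * |s - t| := by
  have := abs_abs_sub_abs_le_abs_sub s t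
  have h2 := le_abs_self (s - t)
  have h3 := neg_abs_le (s - t)
  rw [abs_le] at this ⊢
  simp only [g]; push_cast
  constructor <;> linarith [this.1, this.2]

theorem g'_lip (s t : ℝ) : |g' s - g' t| ≤ (1 : NNReal) * |s - t| := by
  have := abs_abs_sub_abs_le_abs_sub s t
  have h2 := le_abs_self (s - t)
  have h3 := neg_abs_le (s - t)
  rw [abs_le] at this ⊢
  simp only [g']; push_cast
  constructor <;> linarith [this.1, this.2]

theorem gg' (t : ℝ) : g (g' t) = t := by
  unfold g g'
  rcases le_total 0 t with h | h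
  · rw [abs_of_nonneg h, abs_of_nonneg (by linarith)]; ring
  · rw [abs_of_nonpos h, abs_of_nonpos (by linarith)]; ring

theorem g'g (t : ℝ) : g' (g t) = t := by
  unfold g g'
  rcases le_total 0 t with h | h
  · rw [abs_of_nonneg h, abs_of_nonneg (by linarith)]; ring
  · rw [abs_of_nonpos h, abs_of_nonpos (by linarith)]; ring

noncomputable def phi : H ≃ H where
  toFun := lift g _ g_lip (by simp [g])
  invFun := lift g' _ g'_lip (by simp [g'])
  left_inv x := lp.ext (funext fun i => g'g _)
  right_inv x := lp.ext (funext fun i => gg' _)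

theorem zero_coord (x : H) : ∃ i, x i = 0 := by
  by_contra h
  push Not at h
  have hs := (lp.memℓp x).summable (by norm_num)
  have := hs.countable_support
  rw [show Function.support (fun i => ‖x i‖ ^ (2 : ℝ≥0∞).toReal) = Set.univ from
    Set.eq_univ_of_forall fun i => by simpa using h i] at this
  exact Cardinal.not_countable_real this

theorem result : ∃ (X : Type) (_ : NormedAddCommGroup X) (_ : NormedSpace ℝ X)
    (_ : CompleteSpace X), ¬ TopologicalSpace.SeparableSpace X ∧ UniformConvexSpace X ∧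
    Function.Surjective (NormedSpace.inclusionInDoubleDual ℝ X) ∧
    ∃ φ : X ≃ X, (∃ K, LipschitzWith K φ) ∧ (∃ K, LipschitzWith K φ.symm) ∧
      ∀ x, ¬ GateauxAt φ x := by
  classical
  refine ⟨H, inferInstance, inferInstance, inferInstance, fun hs => ?_, inferInstance, ?_, phi,
    ⟨3, lift_lip g 3 g_lip (by simp [g])⟩, ⟨1, lift_lip g' 1 g'_lip (by simp [g'])⟩, ?_⟩
  · have := Pairwise.countable_of_isOpen_disjoint (ι := ℝ)
      (s := fun i => Metric.ball (lp.single 2 i (1 : ℝ) : H) (1 / 2))
      (fun i j hij => Metric.ball_disjoint_ball (by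
        have := lp.norm_apply_le_norm (by norm_num)
          ((lp.single 2 i (1 : ℝ) : H) - lp.single 2 j (1 : ℝ)) i
        rw [dist_eq_norm]
        simp [lp.single_apply, Pi.single_eq_of_ne hij] at this
        linarith)) (fun i => Metric.isOpen_ball) (fun i => Metric.nonempty_ball.2 (by norm_num))
    exact not_countable this
  · intro F
    obtain ⟨x, hx⟩ := (InnerProductSpace.toDual ℝ H).surjective
      (F ∘L (innerSL ℝ : H →L[ℝ] StrongDual ℝ H))
    refine ⟨x, ContinuousLinearMap.ext fun f => ?_⟩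
    obtain ⟨y, rfl⟩ := (InnerProductSpace.toDual ℝ H).surjective f
    have := congrArg (fun L : StrongDual ℝ H => L y) hx
    simp only [InnerProductSpace.toDual_apply_apply, ContinuousLinearMap.comp_apply] at this
    rw [NormedSpace.dual_def, InnerProductSpace.toDual_apply_apply, real_inner_comm, this]
    rfl
  · rintro x ⟨T, hT⟩
    obtain ⟨i, hi⟩ := zero_coord x
    have c : Continuous fun y : H => y i := (lp.lipschitzWith_one_eval 2 i).continuous
    have h := (c.tendsto _).comp (hT (lp.single 2 i 1))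
    have e : ∀ t : ℝ, (t⁻¹ • (phi (x + t • lp.single 2 i 1) - phi x) : H) i = t⁻¹ * g t := by
      intro t
      simp [phi, lift, hi, g]
    have h1 : Tendsto (fun _ : ℝ => (3 : ℝ)) (𝓝[>] 0) (𝓝 (T (lp.single 2 i 1) i)) := by
      refine (h.mono_left (nhdsWithin_mono _ fun t ht => ne_of_gt ht)).congr' ?_
      filter_upwards [self_mem_nhdsWithin] with t ht
      have ht : 0 < t := ht
      rw [Function.comp_apply, e, g, abs_of_pos ht]; field_simp; norm_num
    have h2 : Tendsto (fun _ : ℝ => (1 : ℝ)) (𝓝[<] 0) (𝓝 (T (lp.single 2 i 1) i)) := by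
      refine (h.mono_left (nhdsWithin_mono _ fun t ht => ne_of_lt ht)).congr' ?_
      filter_upwards [self_mem_nhdsWithin] with t ht
      have ht : t < 0 := ht
      rw [Function.comp_apply, e, g, abs_of_neg ht]; field_simp [ht.ne]; norm_num
    have := tendsto_nhds_unique h1 tendsto_const_nhds
    have := tendsto_nhds_unique h2 tendsto_const_nhds
    linarith

end Pool.Agent.Results.MP_714461_an.Nowhere
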